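import Mathlib
import Pool.Agent.Y272.EX.Stm

/-!
# The exact exponent of the inradius (helper500, project EXF of helper272)
-/

set_option autoImplicit false

open Set Filter Metric MeasureTheory Topology

namespace Pool.Agent.Y500.EXF

open Pool.Agent.Y272.EX
open Pool.Agent.Y298.CA (Lyap)
open Pool.Agent.Y272.GA (FF ee dF NE)

/-- the radii of the balls -/
def AR (d : ℕ) (c₀ : ℂ) (S : Set (Fin (d + 1) → ℂ)) (r : ℝ) : Set ℝ :=
  {ρ : ℝ | 0 ≤ ρ ∧ ∃ b : Fin (d + 1) → ℂ, closedBall b ρ ⊆ S ∩ closedBall (ee d c₀) r}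

theorem norm_sg {d : ℕ} (t : ℂ) : ‖(Pi.single 0 t : Fin (d + 1) → ℂ)‖ = ‖t‖ := by
  apply le_antisymm
  · rw [pi_norm_le_iff_of_nonneg (norm_nonneg _)]
    intro i
    by_cases hi : i = 0
    · subst hi
      simp
    · simp [Pi.single_eq_of_ne hi]
  · have := norm_le_pi_norm (Pi.single 0 t : Fin (d + 1) → ℂ) 0
    rwa [Pi.single_eq_same] at this

theorem AR_le {d : ℕ} {c₀ : ℂ} {S : Set (Fin (d + 1) → ℂ)} {r ρ : ℝ} (h : ρ ∈ AR d c₀ S r) :
    ρ ≤ r := by
  obtain ⟨h0, b, hb⟩ := h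
  have h1 : b + (Pi.single 0 (ρ : ℂ) : Fin (d + 1) → ℂ) ∈ closedBall b ρ := by
    rw [mem_closedBall, dist_eq_norm, add_sub_cancel_left, norm_sg, Complex.norm_real,
      Real.norm_of_nonneg h0]
  have h2 : b - (Pi.single 0 (ρ : ℂ) : Fin (d + 1) → ℂ) ∈ closedBall b ρ := by
    rw [mem_closedBall, dist_eq_norm, sub_sub_cancel_left, norm_neg, norm_sg, Complex.norm_real,
      Real.norm_of_nonneg h0]
  have h3 := (hb h1).2
  have h4 := (hb h2).2
  rw [mem_closedBall, dist_eq_norm] at h3 h4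
  have h5 : ‖((2 * ρ : ℝ) : ℂ)‖ ≤ r + r := by
    rw [← norm_sg (d := d)]
    calc ‖(Pi.single 0 (((2 * ρ : ℝ) : ℂ)) : Fin (d + 1) → ℂ)‖
        = ‖(b + (Pi.single 0 (ρ : ℂ) : Fin (d + 1) → ℂ) - ee d c₀) -
            (b - (Pi.single 0 (ρ : ℂ) : Fin (d + 1) → ℂ) - ee d c₀)‖ := by
          congr 1
          have : (((2 * ρ : ℝ) : ℂ)) = (ρ : ℂ) + ρ := by push_cast; ring
          rw [this, Pi.single_add]
          abel
      _ ≤ _ := norm_sub_le _ _
      _ ≤ r + r := add_le_add h3 h4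
  rw [Complex.norm_real, Real.norm_of_nonneg (by linarith)] at h5
  linarith

theorem core (hD : S_DIR) {d : ℕ} {χ : ℝ} {c₀ : ℂ} (hd : 2 ≤ d) (hL : Lyap d χ c₀)
    {S : Set (Fin (d + 1) → ℂ)} (hAS : AA d ⊆ S) (hSN : S ⊆ NE d)
    (hA : ∀ E : ℝ, 0 ≤ E → E < 2 * (d : ℝ) / ((d : ℝ) - 1) →
      ∃ C ε : ℝ, 0 < C ∧ 0 < ε ∧ ∀ r : ℝ, 0 < r → r ≤ ε → ∀ b : Fin (d + 1) → ℂ,
      ‖b - ee d c₀‖ ≤ r →
        volume {t : ℂ | ‖t‖ ≤ r ∧ b + Pi.single 0 t ∈ NE d} ≤ ENNReal.ofReal (C * r ^ E)) :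
    Tendsto (fun r : ℝ => Real.log (sSup (AR d c₀ S r)) / Real.log r)
      (𝓝[>] 0) (𝓝 ((d : ℝ) / ((d : ℝ) - 1))) := by
  have hdR : (2 : ℝ) ≤ d := by exact_mod_cast hd
  have hd1 : 0 < (d : ℝ) - 1 := by linarith
  obtain ⟨D, hDD⟩ : ∃ D : ℝ, D = (d : ℝ) / ((d : ℝ) - 1) := ⟨_, rfl⟩
  have hD1 : 1 < D := by
    rw [hDD, lt_div_iff₀ hd1]
    linarith
  have h2D : 2 * (d : ℝ) / ((d : ℝ) - 1) = 2 * D := by
    rw [hDD]
    ring
  rw [h2D] at hA
  rw [← hDD]
  have hbdd : ∀ r, BddAbove (AR d c₀ S r) := fun r => ⟨r, fun ρ hρ => AR_le hρ⟩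
  -- the lower bound
  have hlow : ∀ ε : ℝ, 0 < ε → ∀ᶠ r in 𝓝[>] (0 : ℝ), r ^ (D + ε) ∈ AR d c₀ S r := by
    intro ε hε
    obtain ⟨r₀, hr₀, H⟩ := hD d χ c₀ hd hL ε hε
    have h1 : Tendsto (fun r : ℝ => r ^ (D + ε - 1)) (𝓝[>] 0) (𝓝 0) := by
      have h2 : ContinuousAt (fun r : ℝ => r ^ (D + ε - 1)) 0 :=
        Real.continuousAt_rpow_const 0 _ (Or.inr (by linarith))
      have h3 := h2.tendsto
      rw [Real.zero_rpow (by linarith)] at h3
      exact h3.mono_left nhdsWithin_le_nhds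
    have h2 : ∀ᶠ r in 𝓝[>] (0 : ℝ), r ^ (D + ε - 1) < 1 / 2 := h1.eventually_lt_const (by norm_num)
    have h3 : ∀ᶠ r in 𝓝[>] (0 : ℝ), r < r₀ :=
      (eventually_lt_nhds hr₀).filter_mono nhdsWithin_le_nhds
    filter_upwards [h2, h3, self_mem_nhdsWithin] with r hr1 hr2 hr3
    have hr : (0 : ℝ) < r := hr3
    have hb0 : (ee d c₀) 0 = c₀ := by
      unfold ee
      rw [Pi.single_eq_same]
    obtain ⟨t₁, ht₁, hsub⟩ := H r hr hr2.le (ee d c₀) hb0
      (by rw [sub_self, norm_zero]; positivity)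
    rw [← hDD] at hsub
    refine ⟨by positivity, ee d c₀ + (Pi.single 0 t₁ : Fin (d + 1) → ℂ), ?_⟩
    intro y hy
    refine ⟨hAS (hsub hy), ?_⟩
    rw [mem_closedBall, dist_eq_norm] at hy ⊢
    have h4 : r ^ (D + ε) ≤ r / 2 := by
      have h5 : r ^ (D + ε) = r ^ (D + ε - 1) * r := by
        rw [← Real.rpow_add_one hr.ne']
        congr 1
        ring
      rw [h5]
      nlinarith
    calc ‖y - ee d c₀‖ = ‖(y - (ee d c₀ + (Pi.single 0 t₁ : Fin (d + 1) → ℂ))) +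
          (Pi.single 0 t₁ : Fin (d + 1) → ℂ)‖ := by congr 1; abel
      _ ≤ ‖y - (ee d c₀ + (Pi.single 0 t₁ : Fin (d + 1) → ℂ))‖ +
          ‖(Pi.single 0 t₁ : Fin (d + 1) → ℂ)‖ := norm_add_le _ _
      _ ≤ r / 2 + r / 2 := by
          rw [norm_sg]
          exact add_le_add (hy.trans h4) ht₁
      _ = r := by ring
  have hr01 : ∀ᶠ r in 𝓝[>] (0 : ℝ), 0 < r ∧ r < 1 := by
    have h3 : ∀ᶠ r in 𝓝[>] (0 : ℝ), r < 1 :=
      (eventually_lt_nhds one_pos).filter_mono nhdsWithin_le_nhds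
    filter_upwards [h3, self_mem_nhdsWithin] with r hr1 hr2
    exact ⟨hr2, hr1⟩
  rw [tendsto_order]
  constructor
  · intro a' ha'
    obtain ⟨m, hm⟩ : ∃ m : ℝ, m = max ((a' + D) / 2) 0 := ⟨_, rfl⟩
    have hm0 : 0 ≤ m := by rw [hm]; exact le_max_right _ _
    have hmD : m < D := by rw [hm]; exact max_lt (by linarith) (by linarith)
    have hma : a' < m := by
      have h0 : (a' + D) / 2 ≤ m := by rw [hm]; exact le_max_left _ _
      linarith
    obtain ⟨C, ε, hC, hε, H⟩ := hA (2 * m) (by linarith) (by linarith)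
    have h1 := hlow 1 one_pos
    have h2 : ∀ᶠ r in 𝓝[>] (0 : ℝ), r < ε :=
      (eventually_lt_nhds hε).filter_mono nhdsWithin_le_nhds
    have h3 : ∀ᶠ r in 𝓝[>] (0 : ℝ), Real.log r < -((|Real.log C| + 1) / (m - a')) :=
      Real.tendsto_log_nhdsGT_zero.eventually (eventually_lt_atBot _)
    filter_upwards [h1, h2, h3, hr01] with r hr1 hr2 hr3 hr4
    obtain ⟨hr, hr5⟩ := hr4
    have hlog : Real.log r < 0 := Real.log_neg hr hr5
    have hS0 : 0 < sSup (AR d c₀ S r) :=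
      lt_of_lt_of_le (by positivity) (le_csSup (hbdd r) hr1)
    have hup : sSup (AR d c₀ S r) ≤ √(C * r ^ (2 * m)) := by
      refine csSup_le ⟨_, hr1⟩ fun ρ hρ => ?_
      have hρr := AR_le hρ
      obtain ⟨h0, b, hb⟩ := hρ
      have hbr : ‖b - ee d c₀‖ ≤ r := by
        have := (hb (mem_closedBall_self h0)).2
        rwa [mem_closedBall, dist_eq_norm] at this
      have h5 := H r hr hr2.le b hbr
      have h6 : closedBall (0 : ℂ) ρ ⊆ {t : ℂ | ‖t‖ ≤ r ∧ b + Pi.single 0 t ∈ NE d} := by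
        intro t ht
        rw [mem_closedBall_zero_iff] at ht
        refine ⟨ht.trans hρr, hSN (hb ?_).1⟩
        rw [mem_closedBall, dist_eq_norm, add_sub_cancel_left, norm_sg]
        exact ht
      have h7 := (measure_mono h6).trans h5
      rw [Complex.volume_closedBall] at h7
      have h8 : ENNReal.ofReal (ρ ^ 2) ≤ ENNReal.ofReal (C * r ^ (2 * m)) := by
        refine le_trans ?_ h7
        rw [ENNReal.ofReal_pow h0]
        refine le_mul_of_one_le_right bot_le ?_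
        have h9 : (1 : NNReal) ≤ NNReal.pi := by
          rw [← NNReal.coe_le_coe, NNReal.coe_real_pi, NNReal.coe_one]
          linarith [Real.pi_gt_three]
        exact_mod_cast h9
      rw [ENNReal.ofReal_le_ofReal_iff (by positivity)] at h8
      exact Real.le_sqrt_of_sq_le h8
    have h6 : Real.log (sSup (AR d c₀ S r)) ≤ (Real.log C + 2 * m * Real.log r) / 2 := by
      refine (Real.log_le_log hS0 hup).trans (le_of_eq ?_)
      rw [Real.log_sqrt (by positivity), Real.log_mul hC.ne' (by positivity), Real.log_rpow hr]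
    rw [lt_div_iff_of_neg hlog]
    refine h6.trans_lt ?_
    have h7 : 0 < m - a' := by linarith
    have h8 : Real.log r * (m - a') < -(|Real.log C| + 1) := by
      have := mul_lt_mul_of_pos_right hr3 h7
      rw [neg_mul, div_mul_cancel₀ _ h7.ne'] at this
      exact this
    have h9 := le_abs_self (Real.log C)
    have h10 := abs_nonneg (Real.log C)
    nlinarith
  · intro a' ha'
    have hε : 0 < (a' - D) / 2 := by linarith
    filter_upwards [hlow _ hε, hr01] with r hr1 hr4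
    obtain ⟨hr, hr5⟩ := hr4
    have hlog : Real.log r < 0 := Real.log_neg hr hr5
    have hS1 := le_csSup (hbdd r) hr1
    have h6 : (D + (a' - D) / 2) * Real.log r ≤ Real.log (sSup (AR d c₀ S r)) := by
      rw [← Real.log_rpow hr]
      exact Real.log_le_log (by positivity) hS1
    rw [div_lt_iff_of_neg hlog]
    refine lt_of_lt_of_le ?_ h6
    apply mul_lt_mul_of_neg_right _ hlog
    linarith

end Pool.Agent.Y500.EXF
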